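import Pool.Agent.H59.CV.REP

/-!
# The second moment opened
-/

set_option autoImplicit false

open NumberField NumberField.InfinitePlace Complex Filter Topology MeasureTheory

namespace Pool.Agent.H59.CV

open Pool.Agent.H28.RC Pool.Agent.H25.HK Pool.Agent.H37.CV

theorem rpow_sq {x : ℝ} (hx : 0 < x) : (x ^ 2) ^ (-(1 / 2) : ℝ) = x⁻¹ := by
  rw [← Real.rpow_natCast, ← Real.rpow_mul hx.le, ← Real.rpow_neg_one]
  norm_num

theorem rpow_self {x : ℝ} (hx : 0 < x) : x ^ (-(1 / 2) : ℝ) * x ^ (-(1 / 2) : ℝ) = x⁻¹ := by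
  rw [← Real.rpow_add hx, ← Real.rpow_neg_one]
  norm_num

theorem coef {a b g R t v u : ℝ} (ha : 0 < a) (hb : 0 < b) (hg : 0 < g) (hR : 0 < R) (ht : 0 < t)
    (_hv : 0 < v) (_hu : 0 < u) (h : v * u * g ^ 2 = a * b * R) :
    a ^ (-(1 / 2) : ℝ) * b ^ (-(1 / 2) : ℝ) * ((v * t) * (u * t)) ^ (-(1 / 2) : ℝ) =
      R ^ (-(1 / 2) : ℝ) * (g / (a * b)) * t⁻¹ := by
  have h1 : (v * t) * (u * t) = (a * b) * (R * (t / g) ^ 2) := by
    have : v * u = a * b * R / g ^ 2 := by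
      rw [eq_div_iff (by positivity)]
      exact h
    calc (v * t) * (u * t) = (v * u) * t ^ 2 := by ring
      _ = a * b * R / g ^ 2 * t ^ 2 := by rw [this]
      _ = _ := by
          field_simp
  have hab : 0 < a * b := mul_pos ha hb
  rw [h1, ← Real.mul_rpow ha.le hb.le, Real.mul_rpow hab.le (by positivity),
    Real.mul_rpow hR.le (by positivity), rpow_sq (div_pos ht hg), ← mul_assoc, rpow_self hab,
    inv_div]
  field_simp

section
variable {K : Type} [Field K] [NumberField K]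

theorem summable_nm3 {C : ℝ} (h : NB K C) : Summable (fun t : NI K => ((nm t.1) ^ 3)⁻¹) := by
  classical
  refine summable_of_sum_le (c := 8 / 3 * C * (((1 : ℝ) / 2) ^ 2)⁻¹) (fun t => ?_) fun u => ?_
  · have := one_le_nm t.2
    positivity
  · have h1 := tail h (y := 1 / 2) le_rfl (u.image fun t => t.1) (by
      intro I hI
      obtain ⟨t, _, rfl⟩ := Finset.mem_image.1 hI
      exact ⟨t.2, by linarith [one_le_nm t.2]⟩)
    rwa [Finset.sum_image (fun a _ b _ hab => Subtype.ext hab)] at h1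

/-- the terms of the second sum -/
noncomputable def FF (Q : ℝ) (p : NI K × NI K) : ℂ :=
  (((nm p.1.1 * nm p.2.1) ^ (-(1 / 2) : ℝ) : ℝ) : ℂ) *
    Vf (nrComplexPlaces K) (nm p.1.1 * nm p.2.1 / Q)

theorem summable_FF (hWV : T_WV) {C : ℝ} (h : NB K C) {Q : ℝ} (hQ : 0 < Q) :
    Summable (fun p : NI K × NI K => ‖FF Q p‖) := by
  obtain ⟨D, hD⟩ := hWV.2 (nrComplexPlaces K) 3
  have h1 : Summable (fun p : NI K × NI K => ((nm p.1.1) ^ 3)⁻¹ * ((nm p.2.1) ^ 3)⁻¹) :=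
    (summable_nm3 h).mul_of_nonneg (summable_nm3 h)
      (fun t => by
        have := one_le_nm t.2
        simp only [Pi.zero_apply]
        positivity)
      (fun t => by
        have := one_le_nm t.2
        simp only [Pi.zero_apply]
        positivity)
  refine (h1.mul_left (D * Q ^ 3)).of_nonneg_of_le (fun _ => norm_nonneg _) fun p => ?_
  have ha := one_le_nm p.1.2
  have hb := one_le_nm p.2.2
  have ha0 : 0 < nm p.1.1 := by linarith
  have hb0 : 0 < nm p.2.1 := by linarith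
  have hx : 0 < nm p.1.1 * nm p.2.1 / Q := by positivity
  have h2 := hD _ hx
  have h3 : (nm p.1.1 * nm p.2.1) ^ (-(1 / 2) : ℝ) ≤ 1 :=
    Real.rpow_le_one_of_one_le_of_nonpos (by nlinarith) (by norm_num)
  have h4 : ‖Vf (nrComplexPlaces K) (nm p.1.1 * nm p.2.1 / Q)‖ ≤
      D * Q ^ 3 * (((nm p.1.1) ^ 3)⁻¹ * ((nm p.2.1) ^ 3)⁻¹) := by
    rw [← le_div_iff₀ (by positivity)] at h2
    refine h2.trans (le_of_eq ?_)
    field_simp
  unfold FF
  rw [norm_mul, Complex.norm_real, Real.norm_of_nonneg (Real.rpow_nonneg (by positivity) _)]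
  calc (nm p.1.1 * nm p.2.1) ^ (-(1 / 2) : ℝ) *
        ‖Vf (nrComplexPlaces K) (nm p.1.1 * nm p.2.1 / Q)‖
      ≤ 1 * ‖Vf (nrComplexPlaces K) (nm p.1.1 * nm p.2.1 / Q)‖ :=
        mul_le_mul_of_nonneg_right h3 (norm_nonneg _)
    _ ≤ _ := by rw [one_mul]; exact h4

theorem norm_le_one {m : Ideal (𝓞 K)} {ψ : Ideal (𝓞 K) → ℂ} (h : PC m ψ) (I : Ideal (𝓞 K)) :
    ‖ψ I‖ ≤ 1 := by
  by_cases hI : I = ⊥
  · rw [hI, h.bot, norm_zero]
    exact zero_le_one
  · by_cases hm : I ⊔ m = ⊤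
    · rw [h.norm I hI hm]
    · rw [h.zero I hm, norm_zero]
      exact zero_le_one

/-- the coefficients -/
noncomputable def cc (ψ : Ideal (𝓞 K) → ℂ) (S T : Ideal (𝓞 K)) (p : NI K × NI K) : ℂ :=
  ψ (p.1.1 * S) * (starRingEnd ℂ) (ψ (p.2.1 * T))

theorem norm_cc_le {m : Ideal (𝓞 K)} {ψ : Ideal (𝓞 K) → ℂ} (h : PC m ψ) (S T : Ideal (𝓞 K))
    (p : NI K × NI K) : ‖cc ψ S T p‖ ≤ 1 := by
  unfold cc
  rw [norm_mul, RCLike.norm_conj]
  exact mul_le_one₀ (norm_le_one h _) (norm_nonneg _) (norm_le_one h _)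

theorem summable_cc (hWV : T_WV) {C : ℝ} (hN : NB K C) {Q : ℝ} (hQ : 0 < Q) {m : Ideal (𝓞 K)}
    {ψ : Ideal (𝓞 K) → ℂ} (h : PC m ψ) (S T : Ideal (𝓞 K)) :
    Summable (fun p : NI K × NI K => FF Q p * cc ψ S T p) := by
  refine Summable.of_norm ((summable_FF hWV hN hQ).of_nonneg_of_le (fun _ => norm_nonneg _)
    fun p => ?_)
  rw [norm_mul]
  calc ‖FF Q p‖ * ‖cc ψ S T p‖ ≤ ‖FF Q p‖ * 1 :=
        mul_le_mul_of_nonneg_left (norm_cc_le h S T p) (norm_nonneg _)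
    _ = _ := mul_one _

/-- the weight of `S` -/
noncomputable def ww (M : ℝ) (S : Finset (PrI K)) : ℂ :=
  (xw K M S : ℂ) * ((nS np S ^ (-(1 / 2) : ℝ) : ℝ) : ℂ)

theorem open_psi {m : Ideal (𝓞 K)} {ψ : Ideal (𝓞 K) → ℂ} (h : PC m ψ) (Q M : ℝ) :
    A2 Q ψ * ((‖mol M ψ‖ ^ 2 : ℝ) : ℂ) = ∑ S ∈ DM K M, ∑ T ∈ DM K M,
      ww M S * ww M T * ∑' p : NI K × NI K, FF Q p * cc ψ (idS S) (idS T) p := by
  have h1 : ((‖mol M ψ‖ ^ 2 : ℝ) : ℂ) = mol M ψ * (starRingEnd ℂ) (mol M ψ) := by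
    rw [Complex.mul_conj']
    push_cast
    rfl
  have h2 : mol M ψ = ∑ S ∈ DM K M, ww M S * ψ (idS S) := by
    unfold mol ww
    refine Finset.sum_congr rfl fun S _ => ?_
    ring
  have h3 : (starRingEnd ℂ) (mol M ψ) =
      ∑ T ∈ DM K M, ww M T * (starRingEnd ℂ) (ψ (idS T)) := by
    rw [h2, map_sum]
    refine Finset.sum_congr rfl fun T _ => ?_
    unfold ww
    rw [map_mul, map_mul, Complex.conj_ofReal, Complex.conj_ofReal]
  rw [h1, h3, h2, Finset.sum_mul_sum, Finset.mul_sum]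
  refine Finset.sum_congr rfl fun S _ => ?_
  rw [Finset.mul_sum]
  refine Finset.sum_congr rfl fun T _ => ?_
  have h4 : A2 Q ψ * (ψ (idS S) * (starRingEnd ℂ) (ψ (idS T))) =
      ∑' p : NI K × NI K, FF Q p * cc ψ (idS S) (idS T) p := by
    unfold A2
    rw [← tsum_mul_right]
    refine tsum_congr fun p => ?_
    unfold FF cc
    rw [h.mul, h.mul, map_mul]
    ring
  rw [← h4]
  ring

theorem inner_sum {m d : Ideal (𝓞 K)} (hfin : (Ch m d).Finite)
    (hOR : ∀ I J : Ideal (𝓞 K), I ≠ ⊥ → J ≠ ⊥ → I ⊔ m = ⊤ → J ⊔ m = ⊤ →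
      (Rl m d I J → ∑ᶠ ψ ∈ Ch m d, ψ I * (starRingEnd ℂ) (ψ J) = nc m d) ∧
      (¬ Rl m d I J → ∑ᶠ ψ ∈ Ch m d, ψ I * (starRingEnd ℂ) (ψ J) = 0))
    {S T : Ideal (𝓞 K)} (hS0 : S ≠ ⊥) (hT0 : T ≠ ⊥) (hS : S ⊔ m = ⊤) (hT : T ⊔ m = ⊤)
    (p : NI K × NI K) :
    (p ∈ XX m d S T → ∑ ψ ∈ hfin.toFinset, cc ψ S T p = nc m d) ∧
      (p ∉ XX m d S T → ∑ ψ ∈ hfin.toFinset, cc ψ S T p = 0) := by
  have hpc : ∀ ψ ∈ hfin.toFinset, PC m ψ := fun ψ hψ => (hfin.mem_toFinset.1 hψ).1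
  have hsum : ∑ᶠ ψ ∈ Ch m d, ψ (p.1.1 * S) * (starRingEnd ℂ) (ψ (p.2.1 * T)) =
      ∑ ψ ∈ hfin.toFinset, cc ψ S T p := finsum_mem_eq_finite_toFinset_sum _ hfin
  have hI0 : p.1.1 * S ≠ ⊥ := mul_ne p.1.2 hS0
  have hJ0 : p.2.1 * T ≠ ⊥ := mul_ne p.2.2 hT0
  constructor
  · rintro ⟨h1, h2, h3⟩
    rw [← hsum]
    exact (hOR _ _ hI0 hJ0 (sup_mul h1 hS) (sup_mul h2 hT)).1 h3
  · intro h
    by_cases h1 : p.1.1 ⊔ m = ⊤
    · by_cases h2 : p.2.1 ⊔ m = ⊤
      · have h3 : ¬ Rl m d (p.1.1 * S) (p.2.1 * T) := fun h3 => h ⟨h1, h2, h3⟩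
        rw [← hsum]
        exact (hOR _ _ hI0 hJ0 (sup_mul h1 hS) (sup_mul h2 hT)).2 h3
      · refine Finset.sum_eq_zero fun ψ hψ => ?_
        unfold cc
        rw [(hpc ψ hψ).zero (p.2.1 * T) (fun h4 => h2 (of_sup_mul h4).1), map_zero, mul_zero]
    · refine Finset.sum_eq_zero fun ψ hψ => ?_
      unfold cc
      rw [(hpc ψ hψ).zero (p.1.1 * S) (fun h4 => h1 (of_sup_mul h4).1), zero_mul]

theorem idS_ne (S : Finset (PrI K)) : idS S ≠ ⊥ := by
  unfold idS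
  exact Finset.prod_ne_zero_iff.2 fun P _ => P.2.2

theorem idS_sup {m : Ideal (𝓞 K)} {M : ℝ} (hP : ∀ P : PrI K, m ≤ P.1 → M < np P)
    {S : Finset (PrI K)} (hS : S ∈ DM K M) : idS S ⊔ m = ⊤ := by
  classical
  unfold idS
  refine Ideal.prod_sup_eq_top fun P hPS => ?_
  unfold DM DS at hS
  rw [Finset.mem_filter, Finset.mem_powerset] at hS
  have h1 : np P ≤ M := by
    have h2 := hS.1 hPS
    unfold PM at h2
    split_ifs at h2 with h3
    · exact h3.mem_toFinset.1 h2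
    · exact absurd h2 (Finset.notMem_empty _)
  have hmax : P.1.IsMaximal := P.2.1.isMaximal P.2.2
  by_contra hne
  have h2 : P.1 = P.1 ⊔ m := hmax.eq_of_le hne le_sup_left
  have h3 : m ≤ P.1 := by
    rw [h2]
    exact le_sup_right
  exact absurd h1 (not_le.2 (hP P h3))

theorem nS_pos (S : Finset (PrI K)) : 0 < nS np S := by
  unfold nS
  refine Finset.prod_pos fun P _ => ?_
  unfold np
  exact lt_of_lt_of_le one_pos (one_le_nm P.2.2)

end

theorem pf_SMO (hOR : T_OR) (hGC : T_GC) (hWV : T_WV) (hDV : T_DV) : T_SMO := by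
  classical
  intro K _ _ _ m d Q M hm hmd hQ hM hP
  obtain ⟨C, hC⟩ := (hDV K).2
  have hNB : NB K C := hC
  obtain ⟨hfin, hnc, hor⟩ := hOR K m d hm hmd
  -- the parametrisation
  have hφ : ∀ S T : Finset (PrI K), ∃ φ : YY m d → NI K × NI K, S ∈ DM K M → T ∈ DM K M →
      Function.Injective φ ∧ Set.range φ = XX m d (idS S) (idS T) ∧
      ∀ y, ww M S * ww M T * FF Q (φ y) =
        (((nm y.1.1.1 * nm y.1.1.2) ^ (-(1 / 2) : ℝ) : ℝ) : ℂ) *
          (((xw K M S * xw K M T * (gg np (pf y.1.1.1) (pf y.1.1.2) S T /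
            (nS np S * nS np T)) : ℝ) : ℂ) * ((((nm y.2.1)⁻¹ : ℝ) : ℂ) *
              Vf (nrComplexPlaces K) (nm y.2.1 ^ 2 / (Q * gg np (pf y.1.1.1) (pf y.1.1.2) S T ^ 2 /
                (nS np S * nS np T * (nm y.1.1.1 * nm y.1.1.2)))))) := by
    intro S T
    by_cases hST : S ∈ DM K M ∧ T ∈ DM K M
    · obtain ⟨hS, hT⟩ := hST
      have h1 : ∀ p : CP m d, ∃ g u v : Ideal (𝓞 K), g ≠ ⊥ ∧ idS S * p.1.2 = g * u ∧
          idS T * p.1.1 = g * v ∧ u ⊔ v = ⊤ ∧ nm g = gg np (pf p.1.1) (pf p.1.2) S T := fun p =>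
        ((hGC K S T).2 p.1.1 p.1.2 p.2.1 p.2.2.1 p.2.2.2.1).2
      choose G U V hG hU hV hUV hg using h1
      obtain ⟨φ, h2, h3, h4⟩ := reparam (idS_ne S) (idS_ne T) (idS_sup hP hS) (idS_sup hP hT)
        G U V hG hU hV hUV
      refine ⟨φ, fun _ _ => ⟨h2, h3, fun y => ?_⟩⟩
      obtain ⟨p, t⟩ := y
      have hI := one_le_nm p.2.1
      have hJ := one_le_nm p.2.2.1
      have ht := one_le_nm t.2.1
      have hgp := one_le_nm (hG p)
      have hS' : nm (idS S) = nS np S := (hGC K S T).1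
      have hT' : nm (idS T) = nS np T := (hGC K T S).1
      have hSp := nS_pos S
      have hTp := nS_pos T
      have hVn : V p ≠ ⊥ := by
        intro h
        have h1 := hV p
        rw [h, Ideal.mul_bot] at h1
        exact mul_ne (idS_ne T) p.2.1 h1
      have hUn : U p ≠ ⊥ := by
        intro h
        have h1 := hU p
        rw [h, Ideal.mul_bot] at h1
        exact mul_ne (idS_ne S) p.2.2.1 h1
      have hVp := one_le_nm hVn
      have hUp := one_le_nm hUn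
      have e1 : nS np S * nm p.1.2 = nm (G p) * nm (U p) := by
        rw [← hS', ← nm_mul, ← nm_mul, hU p]
      have e2 : nS np T * nm p.1.1 = nm (G p) * nm (V p) := by
        rw [← hT', ← nm_mul, ← nm_mul, hV p]
      have e3 : nm (V p) * nm (U p) * nm (G p) ^ 2 =
          nS np S * nS np T * (nm p.1.1 * nm p.1.2) := by
        calc nm (V p) * nm (U p) * nm (G p) ^ 2 =
            (nm (G p) * nm (V p)) * (nm (G p) * nm (U p)) := by ring
          _ = (nS np T * nm p.1.1) * (nS np S * nm p.1.2) := by rw [← e1, ← e2]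
          _ = _ := by ring
      have f1 : nm (φ ⟨p, t⟩).1.1 = nm (V p) * nm t.1 := by
        rw [(h4 ⟨p, t⟩).1, nm_mul]
      have f2 : nm (φ ⟨p, t⟩).2.1 = nm (U p) * nm t.1 := by
        rw [(h4 ⟨p, t⟩).2, nm_mul]
      have hc := coef hSp hTp (show 0 < nm (G p) by linarith)
        (show 0 < nm p.1.1 * nm p.1.2 by positivity) (show 0 < nm t.1 by linarith)
        (show 0 < nm (V p) by linarith) (show 0 < nm (U p) by linarith) e3
      have hv : nm (V p) * nm t.1 * (nm (U p) * nm t.1) / Q = nm t.1 ^ 2 /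
          (Q * nm (G p) ^ 2 / (nS np S * nS np T * (nm p.1.1 * nm p.1.2))) := by
        rw [← e3]
        have h5 : nm (G p) ≠ 0 := by linarith
        have h6 : nm (V p) ≠ 0 := by linarith
        have h7 : nm (U p) ≠ 0 := by linarith
        field_simp
      unfold FF ww
      simp only [f1, f2]
      rw [hv, ← hg p]
      have hc' := congrArg (fun x : ℝ => (x : ℂ)) hc
      push_cast at hc' ⊢
      linear_combination ((xw K M S : ℂ) * (xw K M T : ℂ) * Vf (nrComplexPlaces K) (nm t.1 ^ 2 /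
          (Q * nm (G p) ^ 2 / (nS np S * nS np T * (nm p.1.1 * nm p.1.2))))) * hc'
    · refine ⟨fun _ => (⟨⊤, top_ne_bot⟩, ⟨⊤, top_ne_bot⟩), fun h1 h2 => absurd ⟨h1, h2⟩ hST⟩
  choose φ hφ using hφ
  -- summability
  have hsF := summable_FF (K := K) hWV hNB hQ
  have hsum : ∀ S ∈ DM K M, ∀ T ∈ DM K M, Summable (fun y : YY m d => ‖FF Q (φ S T y)‖) :=
    fun S hS T hT => hsF.comp_injective (hφ S T hS hT).1
  have hDd : ∀ p : CP m d, Dd m Q M p.1.1 p.1.2 = ∑ S ∈ DM K M, ∑ T ∈ DM K M,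
      ww M S * ww M T * ∑' t : {t : Ideal (𝓞 K) // t ≠ ⊥ ∧ t ⊔ m = ⊤}, FF Q (φ S T ⟨p, t⟩) := by
    intro p
    unfold Dd
    rw [Finset.mul_sum]
    refine Finset.sum_congr rfl fun S hS => ?_
    rw [Finset.mul_sum]
    refine Finset.sum_congr rfl fun T hT => ?_
    unfold Sm
    rw [← tsum_mul_left, ← tsum_mul_left, ← tsum_mul_left]
    refine tsum_congr fun t => ?_
    exact ((hφ S T hS hT).2.2 ⟨p, t⟩).symm
  have hsDn : ∀ S ∈ DM K M, ∀ T ∈ DM K M, Summable (fun p : CP m d => ‖ww M S * ww M T *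
      ∑' t : {t : Ideal (𝓞 K) // t ≠ ⊥ ∧ t ⊔ m = ⊤}, FF Q (φ S T ⟨p, t⟩)‖) := by
    intro S hS T hT
    have h1 := (hsum S hS T hT).sigma.mul_left ‖ww M S * ww M T‖
    refine h1.of_nonneg_of_le (fun _ => norm_nonneg _) fun p => ?_
    rw [norm_mul]
    exact mul_le_mul_of_nonneg_left
      (norm_tsum_le_tsum_norm ((hsum S hS T hT).sigma_factor p)) (norm_nonneg _)
  refine ⟨?_, ?_⟩
  · have h1 : Summable (fun p : CP m d => ∑ S ∈ DM K M, ∑ T ∈ DM K M, ‖ww M S * ww M T *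
        ∑' t : {t : Ideal (𝓞 K) // t ≠ ⊥ ∧ t ⊔ m = ⊤}, FF Q (φ S T ⟨p, t⟩)‖) :=
      summable_sum fun S hS => summable_sum fun T hT => hsDn S hS T hT
    refine h1.of_nonneg_of_le (fun _ => norm_nonneg _) fun p => ?_
    rw [hDd p]
    exact (norm_sum_le _ _).trans (Finset.sum_le_sum fun S _ => norm_sum_le _ _)
  · -- the sum of `Dd`
    have hR : ∑' p : CP m d, Dd m Q M p.1.1 p.1.2 = ∑ S ∈ DM K M, ∑ T ∈ DM K M,
        ww M S * ww M T * ∑' y : YY m d, FF Q (φ S T y) := by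
      rw [tsum_congr hDd, Summable.tsum_finsetSum
        (fun S hS => summable_sum fun T hT => (hsDn S hS T hT).of_norm)]
      refine Finset.sum_congr rfl fun S hS => ?_
      rw [Summable.tsum_finsetSum (fun T hT => (hsDn S hS T hT).of_norm)]
      refine Finset.sum_congr rfl fun T hT => ?_
      rw [tsum_mul_left]
      congr 1
      have h1 : Summable (fun y : YY m d => FF Q (φ S T y)) := (hsum S hS T hT).of_norm
      exact (h1.tsum_sigma' fun p => h1.sigma_factor p).symm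
    rw [hR, finsum_mem_eq_finite_toFinset_sum _ hfin]
    have hpc : ∀ ψ ∈ hfin.toFinset, PC m ψ := fun ψ hψ => (hfin.mem_toFinset.1 hψ).1
    rw [Finset.sum_congr rfl fun ψ hψ => open_psi (hpc ψ hψ) Q M, Finset.sum_comm,
      Finset.mul_sum]
    refine Finset.sum_congr rfl fun S hS => ?_
    rw [Finset.sum_comm, Finset.mul_sum]
    refine Finset.sum_congr rfl fun T hT => ?_
    rw [← Finset.mul_sum]
    have h1 : ∑ ψ ∈ hfin.toFinset, ∑' p : NI K × NI K, FF Q p * cc ψ (idS S) (idS T) p =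
        nc m d * ∑' y : YY m d, FF Q (φ S T y) := by
      rw [← Summable.tsum_finsetSum (fun ψ hψ => summable_cc hWV hNB hQ (hpc ψ hψ) _ _)]
      obtain ⟨hinj, hran, _⟩ := hφ S T hS hT
      have h2 : ∀ p : NI K × NI K, ∑ ψ ∈ hfin.toFinset, FF Q p * cc ψ (idS S) (idS T) p =
          Set.indicator (XX m d (idS S) (idS T)) (fun p => (nc m d : ℂ) * FF Q p) p := by
        intro p
        rw [← Finset.mul_sum]
        have h3 := inner_sum hfin hor (idS_ne S) (idS_ne T) (idS_sup hP hS) (idS_sup hP hT) p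
        by_cases hp : p ∈ XX m d (idS S) (idS T)
        · rw [h3.1 hp, Set.indicator_of_mem hp]
          ring
        · rw [h3.2 hp, Set.indicator_of_notMem hp, mul_zero]
      rw [tsum_congr h2, ← hinj.tsum_eq (f := Set.indicator (XX m d (idS S) (idS T))
        (fun p => (nc m d : ℂ) * FF Q p)) (by
          rw [hran]
          exact Set.support_indicator_subset), ← tsum_mul_left]
      refine tsum_congr fun y => ?_
      rw [Set.indicator_of_mem]
      rw [← hran]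
      exact ⟨y, rfl⟩
    rw [h1]
    ring

end Pool.Agent.H59.CV
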