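import Pool.Agent.H37.CV.Targets

/-!
# The sum over the ideals prime to `q`
-/

set_option autoImplicit false

open NumberField NumberField.InfinitePlace Complex Filter Topology MeasureTheory

namespace Pool.Agent.H59.CV

open Pool.Agent.H28.RC Pool.Agent.H25.HK Pool.Agent.H37.CV

section
variable {K : Type} [Field K] [NumberField K]

theorem one_le_nm {I : Ideal (𝓞 K)} (h : I ≠ ⊥) : 1 ≤ nm I := by
  have h1 : Ideal.absNorm I ≠ 0 := fun h2 => h (Ideal.absNorm_eq_zero_iff.1 h2)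
  have h2 : 1 ≤ Ideal.absNorm I := Nat.one_le_iff_ne_zero.2 h1
  unfold nm
  exact_mod_cast h2

theorem nm_mul (I J : Ideal (𝓞 K)) : nm (I * J) = nm I * nm J := by
  unfold nm
  rw [map_mul, Nat.cast_mul]

/-- the hypothesis on the number of ideals -/
def NB (K : Type) [Field K] [NumberField K] (C : ℝ) : Prop :=
  ∀ (x : ℝ) (X : Finset (Ideal (𝓞 K))), 1 ≤ x → (∀ I ∈ X, I ≠ ⊥ ∧ nm I ≤ x) →
    (X.card : ℝ) ≤ C * x ∧ ∑ I ∈ X, (nm I)⁻¹ ≤ C * (1 + Real.log x)

theorem NB.nonneg {C : ℝ} (h : NB K C) : 0 ≤ C := by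
  have h1 := (h 1 ∅ le_rfl (by simp)).1
  simpa using h1

theorem tail_aux {C : ℝ} (h : NB K C) {y : ℝ} (hy : 1 / 2 ≤ y) (N : ℕ) :
    ∀ X : Finset (Ideal (𝓞 K)), (∀ I ∈ X, I ≠ ⊥ ∧ y < nm I ∧ nm I ≤ 2 ^ N * y) →
      ∑ I ∈ X, ((nm I) ^ 3)⁻¹ ≤ 8 / 3 * C * (y ^ 2)⁻¹ * (1 - (4 ^ N)⁻¹) := by
  classical
  have hC := h.nonneg
  have hy0 : 0 < y := by linarith
  induction N with
  | zero =>
    intro X hX
    have : X = ∅ := by
      rw [Finset.eq_empty_iff_forall_notMem]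
      intro I hI
      have := hX I hI
      have h1 := this.2.2
      rw [pow_zero, one_mul] at h1
      linarith [this.2.1]
    rw [this]
    simp
  | succ N ih =>
    intro X hX
    rw [← Finset.sum_filter_add_sum_filter_not X (fun I => nm I ≤ 2 ^ N * y)]
    have h1 := ih (X.filter fun I => nm I ≤ 2 ^ N * y) (by
      intro I hI
      rw [Finset.mem_filter] at hI
      exact ⟨(hX I hI.1).1, (hX I hI.1).2.1, hI.2⟩)
    have h2N : (0 : ℝ) < 2 ^ N * y := by positivity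
    have h2 : ∑ I ∈ X.filter (fun I => ¬ nm I ≤ 2 ^ N * y), ((nm I) ^ 3)⁻¹ ≤
        (C * (2 ^ (N + 1) * y)) * ((2 ^ N * y) ^ 3)⁻¹ := by
      have h3 : ((X.filter (fun I => ¬ nm I ≤ 2 ^ N * y)).card : ℝ) ≤ C * (2 ^ (N + 1) * y) := by
        refine (h (2 ^ (N + 1) * y) _ ?_ ?_).1
        · rw [pow_succ]
          have : (1 : ℝ) ≤ 2 ^ N := one_le_pow₀ (by norm_num)
          nlinarith
        · intro I hI
          rw [Finset.mem_filter] at hI
          exact ⟨(hX I hI.1).1, (hX I hI.1).2.2⟩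
      calc ∑ I ∈ X.filter (fun I => ¬ nm I ≤ 2 ^ N * y), ((nm I) ^ 3)⁻¹
          ≤ ∑ _I ∈ X.filter (fun I => ¬ nm I ≤ 2 ^ N * y), ((2 ^ N * y) ^ 3)⁻¹ := by
            refine Finset.sum_le_sum fun I hI => ?_
            rw [Finset.mem_filter, not_le] at hI
            exact inv_anti₀ (by positivity) (pow_le_pow_left₀ h2N.le hI.2.le 3)
        _ = ((X.filter (fun I => ¬ nm I ≤ 2 ^ N * y)).card : ℝ) * ((2 ^ N * y) ^ 3)⁻¹ := by
            rw [Finset.sum_const, nsmul_eq_mul]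
        _ ≤ _ := mul_le_mul_of_nonneg_right h3 (by positivity)
    refine (add_le_add h1 h2).trans (le_of_eq ?_)
    have h4 : (4 : ℝ) ^ N = 2 ^ N * 2 ^ N := by
      rw [← mul_pow]
      norm_num
    rw [pow_succ, pow_succ (4 : ℝ) N, h4]
    have h2' : (2 : ℝ) ^ N ≠ 0 := by positivity
    field_simp
    ring

theorem tail {C : ℝ} (h : NB K C) {y : ℝ} (hy : 1 / 2 ≤ y) (X : Finset (Ideal (𝓞 K)))
    (hX : ∀ I ∈ X, I ≠ ⊥ ∧ y < nm I) : ∑ I ∈ X, ((nm I) ^ 3)⁻¹ ≤ 8 / 3 * C * (y ^ 2)⁻¹ := by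
  have hC := h.nonneg
  have hy0 : 0 < y := by linarith
  obtain ⟨N, hN⟩ := pow_unbounded_of_one_lt ((∑ I ∈ X, nm I) / y) (one_lt_two : (1 : ℝ) < 2)
  have h1 := tail_aux h hy N X (by
    intro I hI
    refine ⟨(hX I hI).1, (hX I hI).2, ?_⟩
    have h2 : nm I ≤ ∑ I ∈ X, nm I :=
      Finset.single_le_sum (f := fun I => nm I) (fun J _ => Nat.cast_nonneg _) hI
    rw [div_lt_iff₀ hy0] at hN
    linarith)
  refine h1.trans ?_
  have h2 : (0 : ℝ) ≤ 8 / 3 * C * (y ^ 2)⁻¹ := by positivity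
  have h3 : (0 : ℝ) ≤ (4 ^ N)⁻¹ := by positivity
  nlinarith

/-- the bound for the weighted sums -/
theorem bound {C : ℝ} (h : NB K C) (A : ℕ) (hA : 1 ≤ A) {Z : ℝ} (hZ : 0 < Z)
    (X : Finset (Ideal (𝓞 K))) (hX : ∀ I ∈ X, I ≠ ⊥) :
    ∑ I ∈ X, (nm I)⁻¹ * min 1 ((Z / nm I ^ 2) ^ A) ≤
      32 / 3 * C * (1 + max (Real.log Z) 0) * min 1 (Z ^ A) := by
  classical
  have hC := h.nonneg
  rcases le_or_gt 1 Z with h1 | h1
  · have hmin : min 1 (Z ^ A) = 1 := min_eq_left (one_le_pow₀ h1)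
    have hmax : max (Real.log Z) 0 = Real.log Z := max_eq_left (Real.log_nonneg h1)
    rw [hmin, hmax, mul_one]
    have hs1 : 1 ≤ Real.sqrt Z := Real.one_le_sqrt.2 h1
    rw [← Finset.sum_filter_add_sum_filter_not X (fun I => nm I ≤ Real.sqrt Z)]
    have h2 : ∑ I ∈ X.filter (fun I => nm I ≤ Real.sqrt Z),
        (nm I)⁻¹ * min 1 ((Z / nm I ^ 2) ^ A) ≤ C * (1 + Real.log Z) := by
      have h3 := (h (Real.sqrt Z) (X.filter fun I => nm I ≤ Real.sqrt Z) hs1 (by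
        intro I hI
        rw [Finset.mem_filter] at hI
        exact ⟨hX I hI.1, hI.2⟩)).2
      calc ∑ I ∈ X.filter (fun I => nm I ≤ Real.sqrt Z), (nm I)⁻¹ * min 1 ((Z / nm I ^ 2) ^ A)
          ≤ ∑ I ∈ X.filter (fun I => nm I ≤ Real.sqrt Z), (nm I)⁻¹ := by
            refine Finset.sum_le_sum fun I hI => ?_
            have h4 : 0 ≤ (nm I)⁻¹ := inv_nonneg.2 (Nat.cast_nonneg _)
            calc (nm I)⁻¹ * min 1 ((Z / nm I ^ 2) ^ A) ≤ (nm I)⁻¹ * 1 :=
                  mul_le_mul_of_nonneg_left (min_le_left _ _) h4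
              _ = _ := mul_one _
        _ ≤ C * (1 + Real.log (Real.sqrt Z)) := h3
        _ ≤ C * (1 + Real.log Z) := by
            refine mul_le_mul_of_nonneg_left ?_ hC
            rw [Real.log_sqrt hZ.le]
            have := Real.log_nonneg h1
            linarith
    have h3 : ∑ I ∈ X.filter (fun I => ¬ nm I ≤ Real.sqrt Z),
        (nm I)⁻¹ * min 1 ((Z / nm I ^ 2) ^ A) ≤ 8 / 3 * C := by
      have h4 := tail h (y := Real.sqrt Z) (by linarith)
        (X.filter fun I => ¬ nm I ≤ Real.sqrt Z) (by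
          intro I hI
          rw [Finset.mem_filter, not_le] at hI
          exact ⟨hX I hI.1, hI.2⟩)
      rw [Real.sq_sqrt hZ.le] at h4
      calc ∑ I ∈ X.filter (fun I => ¬ nm I ≤ Real.sqrt Z), (nm I)⁻¹ * min 1 ((Z / nm I ^ 2) ^ A)
          ≤ ∑ I ∈ X.filter (fun I => ¬ nm I ≤ Real.sqrt Z), Z * ((nm I) ^ 3)⁻¹ := by
            refine Finset.sum_le_sum fun I hI => ?_
            rw [Finset.mem_filter, not_le] at hI
            have h5 : 0 < nm I := lt_of_lt_of_le one_pos (one_le_nm (hX I hI.1))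
            have h6 : Z / nm I ^ 2 ≤ 1 := by
              rw [div_le_one (by positivity)]
              have := Real.sqrt_lt' h5 |>.1 hI.2
              exact this.le
            have h7 : (Z / nm I ^ 2) ^ A ≤ Z / nm I ^ 2 :=
              pow_le_of_le_one (by positivity) h6 (by omega)
            calc (nm I)⁻¹ * min 1 ((Z / nm I ^ 2) ^ A) ≤ (nm I)⁻¹ * (Z / nm I ^ 2) :=
                  mul_le_mul_of_nonneg_left ((min_le_right _ _).trans h7) (by positivity)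
              _ = Z * ((nm I) ^ 3)⁻¹ := by
                  field_simp
        _ = Z * ∑ I ∈ X.filter (fun I => ¬ nm I ≤ Real.sqrt Z), ((nm I) ^ 3)⁻¹ := by
            rw [Finset.mul_sum]
        _ ≤ Z * (8 / 3 * C * Z⁻¹) := mul_le_mul_of_nonneg_left h4 hZ.le
        _ = 8 / 3 * C := by field_simp
    have hl := Real.log_nonneg h1
    nlinarith [mul_nonneg hC hl]
  · have hmin : min 1 (Z ^ A) = Z ^ A := min_eq_right (pow_le_one₀ hZ.le h1.le)
    have hmax : max (Real.log Z) 0 = 0 := max_eq_right (Real.log_nonpos hZ.le h1.le)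
    rw [hmin, hmax, add_zero, mul_one]
    have h4 := tail h (y := 1 / 2) le_rfl X (by
      intro I hI
      refine ⟨hX I hI, ?_⟩
      have := one_le_nm (hX I hI)
      linarith)
    calc ∑ I ∈ X, (nm I)⁻¹ * min 1 ((Z / nm I ^ 2) ^ A)
        ≤ ∑ I ∈ X, Z ^ A * ((nm I) ^ 3)⁻¹ := by
          refine Finset.sum_le_sum fun I hI => ?_
          have h5 := one_le_nm (hX I hI)
          have h5' : 0 < nm I := by linarith
          have h6 : ((nm I ^ 2) ^ A)⁻¹ ≤ (nm I ^ 2)⁻¹ := by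
            refine inv_anti₀ (by positivity) ?_
            exact le_self_pow₀ (one_le_pow₀ h5) (by omega)
          calc (nm I)⁻¹ * min 1 ((Z / nm I ^ 2) ^ A) ≤ (nm I)⁻¹ * (Z / nm I ^ 2) ^ A :=
                mul_le_mul_of_nonneg_left (min_le_right _ _) (by positivity)
            _ = Z ^ A * ((nm I)⁻¹ * ((nm I ^ 2) ^ A)⁻¹) := by
                rw [div_pow]
                field_simp
            _ ≤ Z ^ A * ((nm I)⁻¹ * (nm I ^ 2)⁻¹) :=
                mul_le_mul_of_nonneg_left (mul_le_mul_of_nonneg_left h6 (by positivity))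
                  (by positivity)
            _ = Z ^ A * ((nm I) ^ 3)⁻¹ := by
                field_simp
      _ = Z ^ A * ∑ I ∈ X, ((nm I) ^ 3)⁻¹ := by rw [Finset.mul_sum]
      _ ≤ Z ^ A * (8 / 3 * C * ((1 / 2) ^ 2)⁻¹) := mul_le_mul_of_nonneg_left h4 (by positivity)
      _ = _ := by ring

/-- the terms of `Sm` -/
noncomputable def tm (K : Type) [Field K] [NumberField K] (Z : ℝ) (t : Ideal (𝓞 K)) : ℂ :=
  (((nm t)⁻¹ : ℝ) : ℂ) * Vf (nrComplexPlaces K) (nm t ^ 2 / Z)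

theorem norm_tm_le (hWV : T_WV) (A : ℕ) : ∃ D : ℝ, 0 ≤ D ∧ ∀ (Z : ℝ) (t : Ideal (𝓞 K)), 0 < Z →
    t ≠ ⊥ → ‖tm K Z t‖ ≤ D * ((nm t)⁻¹ * min 1 ((Z / nm t ^ 2) ^ A)) := by
  obtain ⟨C0, h0⟩ := hWV.2 (nrComplexPlaces K) 0
  obtain ⟨C1, h1⟩ := hWV.2 (nrComplexPlaces K) A
  have hC0 : 0 ≤ C0 := by
    have := h0 1 one_pos
    rw [pow_zero, mul_one] at this
    exact (norm_nonneg _).trans this
  refine ⟨max C0 C1, hC0.trans (le_max_left _ _), fun Z t hZ ht => ?_⟩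
  have hn : 0 < nm t := lt_of_lt_of_le one_pos (one_le_nm ht)
  have hx : 0 < nm t ^ 2 / Z := by positivity
  unfold tm
  rw [norm_mul, Complex.norm_real, Real.norm_of_nonneg (by positivity)]
  have h2 : ‖Vf (nrComplexPlaces K) (nm t ^ 2 / Z)‖ ≤
      max C0 C1 * min 1 ((Z / nm t ^ 2) ^ A) := by
    rcases min_cases 1 ((Z / nm t ^ 2) ^ A) with ⟨h3, _⟩ | ⟨h3, _⟩
    · rw [h3, mul_one]
      have := h0 _ hx
      rw [pow_zero, mul_one] at this
      exact this.trans (le_max_left _ _)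
    · rw [h3]
      have h4 := h1 _ hx
      have h5 : (Z / nm t ^ 2) ^ A = ((nm t ^ 2 / Z) ^ A)⁻¹ := by
        rw [← inv_pow, inv_div]
      rw [h5, ← div_eq_mul_inv, le_div_iff₀ (by positivity)]
      exact h4.trans (le_max_right _ _)
  calc (nm t)⁻¹ * ‖Vf (nrComplexPlaces K) (nm t ^ 2 / Z)‖
      ≤ (nm t)⁻¹ * (max C0 C1 * min 1 ((Z / nm t ^ 2) ^ A)) :=
        mul_le_mul_of_nonneg_left h2 (by positivity)
    _ = _ := by ring

/-- bounded finite sums of norms give summability and a bound for the sum -/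
theorem norm_tsum_le' {ι : Type} (f : ι → ℂ) (B : ℝ) (h : ∀ u : Finset ι, ∑ i ∈ u, ‖f i‖ ≤ B) :
    Summable (fun i => ‖f i‖) ∧ ‖∑' i, f i‖ ≤ B := by
  have h1 : Summable fun i => ‖f i‖ := summable_of_sum_le (fun i => norm_nonneg _) h
  exact ⟨h1, (norm_tsum_le_tsum_norm h1).trans (h1.tsum_le_of_sum_le h)⟩

/-- prime ideals over `q` are few and have large norm -/
theorem primes_over {q : ℕ} (hq : q.Prime) (s : Finset (PrI K)) (hs : ∀ P ∈ s, qi K q ≤ P.1) :
    (∀ P ∈ s, (q : ℝ) ≤ nm P.1) ∧ s.card ≤ Module.finrank ℚ K := by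
  classical
  have hN : Ideal.absNorm (qi K q) = q ^ Module.finrank ℚ K := by
    unfold qi
    rw [Ideal.absNorm_span_singleton]
    have h1 : ((q : 𝓞 K)) = algebraMap ℤ (𝓞 K) (q : ℤ) := by simp
    rw [h1, Algebra.norm_algebraMap, RingOfIntegers.rank, Int.natAbs_pow, Int.natAbs_natCast]
  have hge : ∀ P ∈ s, q ≤ Ideal.absNorm P.1 := by
    intro P hP
    have h1 : Ideal.absNorm P.1 ∣ q ^ Module.finrank ℚ K := by
      rw [← hN]
      exact Ideal.absNorm_dvd_absNorm_of_le (hs P hP)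
    obtain ⟨k, _, hk⟩ := (Nat.dvd_prime_pow hq).1 h1
    have hk0 : k ≠ 0 := by
      rintro rfl
      rw [pow_zero] at hk
      exact P.2.1.ne_top (Ideal.absNorm_eq_one_iff.1 hk)
    rw [hk]
    exact Nat.le_self_pow hk0 q
  refine ⟨fun P hP => ?_, ?_⟩
  · unfold nm
    exact_mod_cast hge P hP
  have h2 : ∏ P ∈ s.image (fun P : PrI K => P.1), P ∣ qi K q := by
    refine Finset.prod_primes_dvd _ (fun P hP => ?_) (fun P hP => ?_)
    · obtain ⟨P', _, rfl⟩ := Finset.mem_image.1 hP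
      exact Ideal.prime_of_isPrime P'.2.2 P'.2.1
    · obtain ⟨P', hP', rfl⟩ := Finset.mem_image.1 hP
      exact Ideal.dvd_iff_le.2 (hs P' hP')
  rw [Finset.prod_image (fun a _ b _ hab => Subtype.ext hab)] at h2
  have h3 : ∏ P ∈ s, Ideal.absNorm P.1 ∣ q ^ Module.finrank ℚ K := by
    rw [← hN, ← map_prod]
    exact Ideal.absNorm_dvd_absNorm_of_le (Ideal.dvd_iff_le.1 h2)
  have h4 : q ^ s.card ≤ q ^ Module.finrank ℚ K := by
    calc q ^ s.card = ∏ _P ∈ s, q := by rw [Finset.prod_const]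
      _ ≤ ∏ P ∈ s, Ideal.absNorm P.1 := Finset.prod_le_prod' fun P hP => hge P hP
      _ ≤ _ := Nat.le_of_dvd (pow_pos hq.pos _) h3
  exact (Nat.pow_le_pow_iff_right hq.one_lt).1 h4

theorem exists_prime_over {t m : Ideal (𝓞 K)} (ht : t ≠ ⊥) (h : t ⊔ m ≠ ⊤) :
    ∃ P : PrI K, t ≤ P.1 ∧ m ≤ P.1 := by
  obtain ⟨P, hP, hle⟩ := Ideal.exists_le_maximal _ h
  refine ⟨⟨P, hP.isPrime, ?_⟩, le_sup_left.trans hle, le_sup_right.trans hle⟩
  rintro rfl
  exact ht (le_bot_iff.1 (le_sup_left.trans hle))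

/-- the ideals which are not prime to `q` -/
theorem bound_q {C : ℝ} (h : NB K C) {q : ℕ} (hq : q.Prime) {Z : ℝ} (hZ : 1 ≤ Z)
    (X : Finset (Ideal (𝓞 K))) (hX : ∀ I ∈ X, I ≠ ⊥ ∧ I ⊔ qi K q ≠ ⊤) :
    ∑ I ∈ X, (nm I)⁻¹ * min 1 ((Z / nm I ^ 2) ^ 1) ≤
      32 / 3 * C * Module.finrank ℚ K * ((1 + Real.log Z) / q) := by
  classical
  have hC := h.nonneg
  have hZ0 : 0 < Z := by linarith
  have hq0 : (0 : ℝ) < q := by exact_mod_cast hq.pos
  have hch : ∀ I : Ideal (𝓞 K), ∃ P : PrI K, I ∈ X → I ≤ P.1 ∧ qi K q ≤ P.1 := by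
    intro I
    by_cases hI : I ∈ X
    · obtain ⟨P, hP⟩ := exists_prime_over (hX I hI).1 (hX I hI).2
      exact ⟨P, fun _ => hP⟩
    · by_cases hX0 : X.Nonempty
      · obtain ⟨J, hJ⟩ := hX0
        obtain ⟨P, _⟩ := exists_prime_over (hX J hJ).1 (hX J hJ).2
        exact ⟨P, fun h => absurd h hI⟩
      · obtain ⟨M, hM⟩ := Ideal.exists_maximal (𝓞 K)
        have hM0 : M ≠ ⊥ := by
          intro h0
          exact RingOfIntegers.not_isField K ((Ring.isField_iff_maximal_bot).2 (h0 ▸ hM))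
        exact ⟨⟨M, hM.isPrime, hM0⟩, fun h => absurd h hI⟩
  choose p hp using hch
  have hps := primes_over hq (X.image p) (by
    intro P hP
    obtain ⟨I, hI, rfl⟩ := Finset.mem_image.1 hP
    exact (hp I hI).2)
  rw [← Finset.sum_fiberwise_of_maps_to (t := X.image p) (g := p)
    (fun I hI => Finset.mem_image_of_mem p hI)]
  have hone : ∀ P ∈ X.image p, ∑ I ∈ X.filter (fun I => p I = P),
      (nm I)⁻¹ * min 1 ((Z / nm I ^ 2) ^ 1) ≤ 32 / 3 * C * ((1 + Real.log Z) / q) := by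
    intro P hP
    have hch2 : ∀ I : Ideal (𝓞 K), ∃ J, I ∈ X.filter (fun I => p I = P) → I = P.1 * J := by
      intro I
      by_cases hI : I ∈ X.filter (fun I => p I = P)
      · rw [Finset.mem_filter] at hI
        have h1 : I ≤ P.1 := hI.2 ▸ (hp I hI.1).1
        obtain ⟨J, hJ⟩ := Ideal.dvd_iff_le.2 h1
        exact ⟨J, fun _ => hJ⟩
      · exact ⟨⊤, fun h => absurd h hI⟩
    choose j hj using hch2
    have hinj : Set.InjOn j (X.filter (fun I => p I = P)) := by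
      intro I hI I' hI' h1
      rw [hj I (Finset.mem_coe.1 hI), hj I' (Finset.mem_coe.1 hI'), h1]
    have hPq : (q : ℝ) ≤ nm P.1 := hps.1 P hP
    calc ∑ I ∈ X.filter (fun I => p I = P), (nm I)⁻¹ * min 1 ((Z / nm I ^ 2) ^ 1)
        ≤ ∑ I ∈ X.filter (fun I => p I = P),
            (q : ℝ)⁻¹ * ((nm (j I))⁻¹ * min 1 ((Z / nm (j I) ^ 2) ^ 1)) := by
          refine Finset.sum_le_sum fun I hI => ?_
          have h1 := hj I hI
          have hI0 : I ≠ ⊥ := (hX I (Finset.mem_filter.1 hI).1).1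
          have hj0 : j I ≠ ⊥ := by
            intro h2
            rw [h2, Ideal.mul_bot] at h1
            exact hI0 h1
          have h2 : nm I = nm P.1 * nm (j I) := by
            conv_lhs => rw [h1]
            exact nm_mul _ _
          have h3 : 1 ≤ nm (j I) := one_le_nm hj0
          have h4 : 0 < nm P.1 := lt_of_lt_of_le hq0 hPq
          have h5 : 1 ≤ nm P.1 := one_le_nm P.2.2
          rw [h2, pow_one, pow_one]
          have h6 : Z / (nm P.1 * nm (j I)) ^ 2 ≤ Z / nm (j I) ^ 2 := by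
            refine div_le_div_of_nonneg_left hZ0.le (by positivity) ?_
            rw [mul_pow]
            have : 1 ≤ nm P.1 ^ 2 := one_le_pow₀ h5
            nlinarith [sq_nonneg (nm (j I))]
          calc (nm P.1 * nm (j I))⁻¹ * min 1 (Z / (nm P.1 * nm (j I)) ^ 2)
              ≤ (nm P.1 * nm (j I))⁻¹ * min 1 (Z / nm (j I) ^ 2) :=
                mul_le_mul_of_nonneg_left (min_le_min le_rfl h6) (by positivity)
            _ = (nm P.1)⁻¹ * ((nm (j I))⁻¹ * min 1 (Z / nm (j I) ^ 2)) := by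
                rw [mul_inv]
                ring
            _ ≤ (q : ℝ)⁻¹ * ((nm (j I))⁻¹ * min 1 (Z / nm (j I) ^ 2)) := by
                refine mul_le_mul_of_nonneg_right (inv_anti₀ hq0 hPq) ?_
                have : 0 ≤ min 1 (Z / nm (j I) ^ 2) := le_min zero_le_one (by positivity)
                positivity
      _ = (q : ℝ)⁻¹ * ∑ J ∈ (X.filter (fun I => p I = P)).image j,
            ((nm J)⁻¹ * min 1 ((Z / nm J ^ 2) ^ 1)) := by
          rw [← Finset.mul_sum, Finset.sum_image hinj]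
      _ ≤ (q : ℝ)⁻¹ * (32 / 3 * C * (1 + max (Real.log Z) 0) * min 1 (Z ^ 1)) := by
          refine mul_le_mul_of_nonneg_left (bound h 1 le_rfl hZ0 _ ?_) (by positivity)
          intro J hJ
          obtain ⟨I, hI, rfl⟩ := Finset.mem_image.1 hJ
          intro h2
          have h1 := hj I hI
          rw [h2, Ideal.mul_bot] at h1
          exact (hX I (Finset.mem_filter.1 hI).1).1 h1
      _ = 32 / 3 * C * ((1 + Real.log Z) / q) := by
          rw [max_eq_left (Real.log_nonneg hZ), pow_one, min_eq_left hZ]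
          field_simp
  refine (Finset.sum_le_sum hone).trans ?_
  rw [Finset.sum_const, nsmul_eq_mul]
  have h1 : ((X.image p).card : ℝ) ≤ Module.finrank ℚ K := by exact_mod_cast hps.2
  have h2 : 0 ≤ 32 / 3 * C * ((1 + Real.log Z) / q) := by
    have := Real.log_nonneg hZ
    positivity
  calc ((X.image p).card : ℝ) * (32 / 3 * C * ((1 + Real.log Z) / q))
      ≤ Module.finrank ℚ K * (32 / 3 * C * ((1 + Real.log Z) / q)) :=
        mul_le_mul_of_nonneg_right h1 h2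
    _ = _ := by ring

open scoped Classical in
/-- the terms with a condition -/
noncomputable def tp (p : Ideal (𝓞 K) → Prop) (Z : ℝ) (t : NI K) : ℂ :=
  if p t.1 then tm K Z t.1 else 0

theorem tp_pos {p : Ideal (𝓞 K) → Prop} {Z : ℝ} {t : NI K} (h : p t.1) :
    tp p Z t = tm K Z t.1 := if_pos h

theorem tp_neg {p : Ideal (𝓞 K) → Prop} {Z : ℝ} {t : NI K} (h : ¬ p t.1) : tp p Z t = 0 :=
  if_neg h

theorem Sm_eq (m : Ideal (𝓞 K)) (Z : ℝ) : Sm m Z = ∑' t : NI K, tp (fun t => t ⊔ m = ⊤) Z t := by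
  classical
  have h1 : ∀ t : NI K, tp (fun t => t ⊔ m = ⊤) Z t =
      Set.indicator {t : NI K | t.1 ⊔ m = ⊤} (fun t => tm K Z t.1) t := fun t => by
    by_cases ht : t.1 ⊔ m = ⊤
    · rw [tp_pos ht, Set.indicator_of_mem (show t ∈ {t : NI K | t.1 ⊔ m = ⊤} from ht)]
    · rw [tp_neg ht, Set.indicator_of_notMem (show t ∉ {t : NI K | t.1 ⊔ m = ⊤} from ht)]
  rw [tsum_congr h1, ← tsum_subtype]
  let e : {t : Ideal (𝓞 K) // t ≠ ⊥ ∧ t ⊔ m = ⊤} ≃ {t : NI K | t.1 ⊔ m = ⊤} :=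
    { toFun := fun t => ⟨⟨t.1, t.2.1⟩, t.2.2⟩
      invFun := fun t => ⟨t.1.1, t.1.2, t.2⟩
      left_inv := fun t => rfl
      right_inv := fun t => rfl }
  exact (e.tsum_eq (fun t : {t : NI K | t.1 ⊔ m = ⊤} => tm K Z t.1.1))

/-- sums over all nonzero ideals -/
theorem tp_key (B Z : ℝ) (p : Ideal (𝓞 K) → Prop) (h : ∀ X : Finset (Ideal (𝓞 K)),
    (∀ I ∈ X, I ≠ ⊥ ∧ p I) → ∑ I ∈ X, ‖tm K Z I‖ ≤ B) :
    Summable (fun t : NI K => ‖tp p Z t‖) ∧ ‖∑' t : NI K, tp p Z t‖ ≤ B := by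
  classical
  refine norm_tsum_le' _ B fun u => ?_
  have h2 := h ((u.filter fun t => p t.1).image fun t => t.1) (by
    intro I hI
    obtain ⟨t, ht, rfl⟩ := Finset.mem_image.1 hI
    exact ⟨t.2, (Finset.mem_filter.1 ht).2⟩)
  rw [Finset.sum_image (fun a _ b _ hab => Subtype.ext hab), Finset.sum_filter] at h2
  refine le_trans (le_of_eq ?_) h2
  refine Finset.sum_congr rfl fun t _ => ?_
  by_cases ht : p t.1
  · rw [tp_pos ht, if_pos ht]
  · rw [tp_neg ht, if_neg ht, norm_zero]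

end

theorem pf_SQ (hVS : T_VS) (hWV : T_WV) (hDV : T_DV) : T_SQ := by
  classical
  intro K _ _ _
  obtain ⟨C₀, C₁, h1⟩ := hVS K
  obtain ⟨C, hC⟩ := (hDV K).2
  have hNB : NB K C := hC
  have hC0 := hNB.nonneg
  have key := @tp_key K _ _
  refine ⟨C₀, ?_, ?_⟩
  · obtain ⟨D, hD0, hD⟩ := norm_tm_le (K := K) hWV 1
    refine ⟨max C₁ 0 + D * (32 / 3 * C * Module.finrank ℚ K), fun q hq Z hZ => ?_⟩
    have hZ0 : 0 < Z := by linarith
    have hl := Real.log_nonneg hZ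
    have hq0 : (0 : ℝ) < q := by exact_mod_cast hq.pos
    have hA := key (D * (32 / 3 * C * (1 + max (Real.log Z) 0) * min 1 (Z ^ 1))) Z
      (fun t => t ⊔ ⊤ = ⊤) (by
        intro X hX
        calc ∑ I ∈ X, ‖tm K Z I‖ ≤ ∑ I ∈ X, D * ((nm I)⁻¹ * min 1 ((Z / nm I ^ 2) ^ 1)) :=
              Finset.sum_le_sum fun I hI => hD Z I hZ0 (hX I hI).1
          _ = D * ∑ I ∈ X, ((nm I)⁻¹ * min 1 ((Z / nm I ^ 2) ^ 1)) := by rw [Finset.mul_sum]
          _ ≤ _ := mul_le_mul_of_nonneg_left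
              (bound hNB 1 le_rfl hZ0 X fun I hI => (hX I hI).1) hD0)
    have hB := key (D * (32 / 3 * C * Module.finrank ℚ K * ((1 + Real.log Z) / q))) Z
      (fun t => t ⊔ qi K q ≠ ⊤) (by
        intro X hX
        calc ∑ I ∈ X, ‖tm K Z I‖ ≤ ∑ I ∈ X, D * ((nm I)⁻¹ * min 1 ((Z / nm I ^ 2) ^ 1)) :=
              Finset.sum_le_sum fun I hI => hD Z I hZ0 (hX I hI).1
          _ = D * ∑ I ∈ X, ((nm I)⁻¹ * min 1 ((Z / nm I ^ 2) ^ 1)) := by rw [Finset.mul_sum]
          _ ≤ _ := mul_le_mul_of_nonneg_left (bound_q hNB hq hZ X hX) hD0)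
    have hdiff : Sm (K := K) ⊤ Z - Sm (qi K q) Z =
        ∑' t : NI K, tp (fun t => t ⊔ qi K q ≠ ⊤) Z t := by
      rw [Sm_eq, Sm_eq]
      have hsub : Summable (fun t : NI K => tp (fun t => t ⊔ qi K q = ⊤) Z t) := by
        refine Summable.of_norm (hA.1.of_nonneg_of_le (fun _ => norm_nonneg _) fun t => ?_)
        rw [tp_pos (p := fun t => t ⊔ ⊤ = ⊤) (sup_top_eq t.1)]
        by_cases ht : t.1 ⊔ qi K q = ⊤
        · rw [tp_pos ht]
        · rw [tp_neg ht, norm_zero]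
          exact norm_nonneg _
      rw [← (Summable.of_norm hA.1).tsum_sub hsub]
      refine tsum_congr fun t => ?_
      rw [tp_pos (p := fun t => t ⊔ ⊤ = ⊤) (sup_top_eq t.1)]
      by_cases ht : t.1 ⊔ qi K q = ⊤
      · rw [tp_pos (p := fun t => t ⊔ qi K q = ⊤) ht,
          tp_neg (p := fun t => t ⊔ qi K q ≠ ⊤) (not_not.2 ht), sub_self]
      · rw [tp_neg (p := fun t => t ⊔ qi K q = ⊤) ht,
          tp_pos (p := fun t => t ⊔ qi K q ≠ ⊤) ht, sub_zero]
    have h2 : Sm (qi K q) Z - (((rho K / 2 * Real.log Z : ℝ) : ℂ) + C₀) =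
        (Sm (K := K) ⊤ Z - (((rho K / 2 * Real.log Z : ℝ) : ℂ) + C₀)) -
          (Sm (K := K) ⊤ Z - Sm (qi K q) Z) := by ring
    rw [h2]
    refine (norm_sub_le _ _).trans ?_
    rw [hdiff]
    have h3 := h1 Z hZ
    have h4 := hB.2
    have hz : 0 ≤ Z ^ (-(1 / 8) : ℝ) := Real.rpow_nonneg hZ0.le _
    have hw : 0 ≤ (1 + Real.log Z) / q := by positivity
    have h5 : C₁ * Z ^ (-(1 / 8) : ℝ) ≤ max C₁ 0 * Z ^ (-(1 / 8) : ℝ) :=
      mul_le_mul_of_nonneg_right (le_max_left _ _) hz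
    have h6 : 0 ≤ D * (32 / 3 * C * Module.finrank ℚ K) := by positivity
    have h7 : 0 ≤ max C₁ 0 := le_max_right _ _
    have h8 := mul_nonneg h6 hz
    have h9 := mul_nonneg h7 hw
    have h10 : D * (32 / 3 * C * Module.finrank ℚ K * ((1 + Real.log Z) / q)) =
        D * (32 / 3 * C * Module.finrank ℚ K) * ((1 + Real.log Z) / q) := by ring
    rw [h10] at h4
    rw [add_mul, mul_add, mul_add]
    linarith
  · intro A
    obtain ⟨D, hD0, hD⟩ := norm_tm_le (K := K) hWV (max A 1)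
    refine ⟨D * (32 / 3 * C), fun m Z hZ => ?_⟩
    have hA := key (D * (32 / 3 * C * (1 + max (Real.log Z) 0) * min 1 (Z ^ max A 1))) Z
      (fun t => t ⊔ m = ⊤) (by
        intro X hX
        calc ∑ I ∈ X, ‖tm K Z I‖
            ≤ ∑ I ∈ X, D * ((nm I)⁻¹ * min 1 ((Z / nm I ^ 2) ^ max A 1)) :=
              Finset.sum_le_sum fun I hI => hD Z I hZ (hX I hI).1
          _ = D * ∑ I ∈ X, ((nm I)⁻¹ * min 1 ((Z / nm I ^ 2) ^ max A 1)) := by
              rw [Finset.mul_sum]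
          _ ≤ _ := mul_le_mul_of_nonneg_left
              (bound hNB (max A 1) (le_max_right _ _) hZ X fun I hI => (hX I hI).1) hD0)
    rw [Sm_eq]
    refine hA.2.trans ?_
    have h2 : min 1 (Z ^ max A 1) ≤ min 1 (Z ^ A) := by
      rcases le_or_gt 1 Z with h3 | h3
      · rw [min_eq_left (one_le_pow₀ h3), min_eq_left (one_le_pow₀ h3)]
      · exact min_le_min le_rfl (pow_le_pow_of_le_one hZ.le h3.le (le_max_left _ _))
    calc D * (32 / 3 * C * (1 + max (Real.log Z) 0) * min 1 (Z ^ max A 1))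
        ≤ D * (32 / 3 * C * (1 + max (Real.log Z) 0) * min 1 (Z ^ A)) := by
          refine mul_le_mul_of_nonneg_left (mul_le_mul_of_nonneg_left h2 ?_) hD0
          have : 0 ≤ max (Real.log Z) 0 := le_max_right _ _
          positivity
      _ = _ := by ring

end Pool.Agent.H59.CV
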