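import Pool.Agent.H11.CV.Targets

/-! Module FB of the cv board (MP_e21eee_nt, helper11). -/

set_option autoImplicit false

open Finset Polynomial

namespace Pool.Agent.H59.CV.FB

open Pool.Agent.H11.CV

theorem fb (hSB : T_SB) (hRS : T_RS) : T_FB := by
  intro p d n i G _ _ τ f hp hin
  have hni : (n - i) + i = n := by omega
  refine ⟨?_, ?_, ?_⟩
  · intro hF ξ hξ z hz
    have hlt := (hRS p (n - i) i hp).2.1 ξ z hξ hz
    rw [hni] at hlt
    have h1 := hF _ hlt
    have h2 := hSB p d (d * n) (n - i) i G τ (ξ : ℤ) (z : ℤ) (f (ξ + p ^ (n - i) * z)) hp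
      (Nat.mul_le_mul_left d (by omega)) (by rw [hni]; exact_mod_cast h1)
    have h3 : d * n - d * (n - i) = d * i := by
      rw [← Nat.mul_sub]
      congr 1
      omega
    rw [h3] at h2
    exact h2
  · intro hB ξ hξ z hz g
    have hlt := (hRS p (n - i) i hp).2.1 ξ z hξ hz
    rw [hni] at hlt
    exact hB _ hlt g
  · have h1 := (hRS p (n - i) i hp).1 ℝ (fun x => ∑ g, ‖f x g‖ ^ 2)
    rw [hni] at h1
    unfold En
    rw [h1]

end Pool.Agent.H59.CV.FB
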