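import Pool.Agent.H11.CV.Targets

/-! Module O1 of the cv board (MP_e21eee_nt, helper11). -/

set_option autoImplicit false

open Finset Polynomial

namespace Pool.Agent.H59.CV.O1

open Pool.Agent.H11.CV

theorem o1 (hPI : T_PI) (hSQ : T_SQ) (hCC : T_CC) : T_O1 := by
  intro p n j q lam G _ _ f hp hj1 hjn hBd
  have key : ∀ g ∈ Om p n lam f j, (p : ℝ) ^ n / (n : ℝ) ≤
      ‖∑ ξ ∈ range (p ^ (n - j)), dlt p (n - j) (pt p n lam f (j - 1)) ξ g‖ := by
    intro g hg
    obtain ⟨k, rfl⟩ : ∃ k, j = k + 1 := ⟨j - 1, by omega⟩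
    simp only [Nat.add_sub_cancel]
    have h1 := hPI p n k lam G f g hp (by omega)
    rw [← h1, Complex.norm_real, Real.norm_eq_abs]
    refine le_trans ?_ (le_abs_self _)
    obtain ⟨hg1, hg2⟩ := hg
    obtain ⟨hs1, hs2, hs3, hs4, hs5⟩ := hSQ p n lam G f g hp
    have h3 := hs3 k (by omega)
    obtain ⟨hc1, hc2, hc3⟩ := hCC p n k hp (by omega)
    have hk : sq p n lam f k g ≤ cc p n k := by
      rcases Nat.eq_zero_or_pos k with rfl | hk
      · rw [hc3]
        exact hs2 hBd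
      · exact hg2 k hk (by omega)
    have hc4 := (hc1 (by omega)).1
    have hn : (0 : ℝ) < n := by exact_mod_cast (by omega : 0 < n)
    have h5 : (p : ℝ) ^ n / (n : ℝ) ≤ cc p n k / (n : ℝ) := by gcongr
    linarith
  have h0 : (0 : ℝ) ≤ (p : ℝ) ^ n / (n : ℝ) := by positivity
  unfold cnt
  classical
  calc _ = ∑ g ∈ univ.filter (fun g => g ∈ Om p n lam f j), ((p : ℝ) ^ n / (n : ℝ)) ^ q := by
        rw [Finset.sum_const, nsmul_eq_mul]
    _ ≤ ∑ g ∈ univ.filter (fun g => g ∈ Om p n lam f j),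
          ‖∑ ξ ∈ range (p ^ (n - j)), dlt p (n - j) (pt p n lam f (j - 1)) ξ g‖ ^ q :=
        Finset.sum_le_sum fun g hg => pow_le_pow_left₀ h0 (key g (by simpa using hg)) q
    _ ≤ _ := Finset.sum_le_sum_of_subset_of_nonneg (Finset.filter_subset _ _)
          (fun _ _ _ => by positivity)

end Pool.Agent.H59.CV.O1
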