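import Pool.Agent.H11.CV.Targets

/-! Module SO of the cv board (MP_e21eee_nt, helper11). -/

set_option autoImplicit false

open Finset Polynomial

namespace Pool.Agent.H59.CV.SO

open Pool.Agent.H11.CV

theorem th_range (d : ℕ) (hd : 2 ≤ d) : 0 ≤ th d ∧ th d < 1 := by
  obtain ⟨k, rfl⟩ : ∃ k, d = k + 2 := ⟨d - 2, by omega⟩
  have h1 : 1 ≤ KK (k + 2 - 1) := by
    unfold KK
    have h : k + 2 - 1 = k + 1 := by omega
    rw [h, Nat.le_div_iff_mul_le (by norm_num)]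
    nlinarith
  have h2 : KK (k + 2 - 1) < KK (k + 2) := by
    unfold KK
    have h : k + 2 - 1 = k + 1 := by omega
    rw [h]
    have h3 : (k + 2) * (k + 2 + 1) = (k + 1) * (k + 1 + 1) + 2 * (k + 2) := by ring
    rw [h3, Nat.add_mul_div_left _ _ (by norm_num)]
    omega
  have h1' : (1 : ℝ) ≤ (KK (k + 2 - 1) : ℝ) := by exact_mod_cast h1
  have h2' : (KK (k + 2 - 1) : ℝ) < (KK (k + 2) : ℝ) := by exact_mod_cast h2
  unfold th
  constructor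
  · apply div_nonneg <;> linarith
  · rw [div_lt_one (by linarith)]
    linarith

theorem so (hRC : T_RC) (hL0 : T_L0) : T_SO := by
  intro p d hp hpd hd
  obtain ⟨C₀, hC₀, hrc⟩ := hRC p d hp hpd hd
  obtain ⟨hth0, hth1⟩ := th_range d hd
  have hL := hL0 p d hp.one_lt (by omega)
  set C₁ : ℕ := ⌈1 / (1 - th d)⌉₊ with hC₁
  refine ⟨max (2 * C₀) C₁, le_trans (by omega) (le_max_left _ _), ?_⟩
  intro n b D hb hD hFl
  have hp1 : (1 : ℝ) ≤ (p : ℝ) := by exact_mod_cast hp.one_lt.le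
  have hC₀' : (1 : ℝ) ≤ (C₀ : ℝ) := by exact_mod_cast hC₀
  have hn1 : (1 : ℝ) ≤ (n : ℝ) + 1 := by
    have : (0 : ℝ) ≤ (n : ℝ) := Nat.cast_nonneg n
    linarith
  set W : ℝ := (C₀ : ℝ) * ((n : ℝ) + 1) ^ C₀ * (p : ℝ) ^ (C₀ * b) * D ^ (n / b + 1) with hW
  have hW1 : 1 ≤ W := by
    have h1 : (1 : ℝ) ≤ ((n : ℝ) + 1) ^ C₀ := one_le_pow₀ hn1
    have h2 : (1 : ℝ) ≤ (p : ℝ) ^ (C₀ * b) := one_le_pow₀ hp1
    have h3 : (1 : ℝ) ≤ D ^ (n / b + 1) := one_le_pow₀ hD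
    have h4 : (1 : ℝ) ≤ (C₀ : ℝ) * ((n : ℝ) + 1) ^ C₀ := one_le_mul_of_one_le_of_one_le hC₀' h1
    have h5 := one_le_mul_of_one_le_of_one_le h4 h2
    exact one_le_mul_of_one_le_of_one_le h5 h3
  have h2W : 1 ≤ 2 * W := by linarith
  have h2W0 : 0 < 2 * W := by linarith
  have hth2 : 0 < 1 - th d := by linarith
  set V : ℝ := (2 * W) ^ (1 / (1 - th d)) with hV
  have hV1 : 1 ≤ V := Real.one_le_rpow h2W (by positivity)
  have hV0 : 0 < V := by linarith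
  have hVth : W * V ^ (th d) = V / 2 := by
    have h1 : V ^ (1 - th d) = 2 * W := by
      rw [hV, ← Real.rpow_mul h2W0.le, one_div, inv_mul_cancel₀ hth2.ne', Real.rpow_one]
    have h2 : V ^ (1 - th d) * V ^ (th d) = V := by
      rw [← Real.rpow_add hV0]
      simp
    rw [h1] at h2
    linarith
  have hlev : ∀ i : ℕ, i ≤ n → Lev p d i V := by
    intro i
    induction i using Nat.strong_induction_on with
    | _ i ih =>
      intro hi
      rcases Nat.eq_zero_or_pos i with rfl | hi0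
      · exact hL.2.1 0 1 V hV1 hL.1
      · have h1 := hrc i b D V hi0 hb hD hV1 hFl (fun j hj => ih j hj (by omega))
        refine hL.2.1 i _ V ?_ h1
        have hi' : (i : ℝ) ≤ (n : ℝ) := by exact_mod_cast hi
        have h2 : (C₀ : ℝ) * ((i : ℝ) + 1) ^ C₀ * (p : ℝ) ^ (C₀ * b) * D ^ (i / b + 1) ≤ W := by
          rw [hW]
          have h3 : D ^ (i / b + 1) ≤ D ^ (n / b + 1) :=
            pow_le_pow_right₀ hD (Nat.succ_le_succ (Nat.div_le_div_right hi))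
          gcongr
        have h4 : 0 ≤ V ^ (th d) := Real.rpow_nonneg hV0.le _
        have h5 := mul_le_mul_of_nonneg_right h2 h4
        linarith
  refine hL.2.1 n V _ ?_ (hlev n le_rfl)
  set C : ℕ := max (2 * C₀) C₁ with hC
  have hC2 : 2 * C₀ ≤ C := le_max_left _ _
  have hC3 : C₁ ≤ C := le_max_right _ _
  have hZ : 2 * W ≤ (C : ℝ) * ((n : ℝ) + 1) ^ C * (p : ℝ) ^ (C * b) * D ^ (n / b + 1) := by
    have h1 : (2 * (C₀ : ℝ)) ≤ (C : ℝ) := by exact_mod_cast hC2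
    have h2 : ((n : ℝ) + 1) ^ C₀ ≤ ((n : ℝ) + 1) ^ C := pow_le_pow_right₀ hn1 (by omega)
    have h3 : (p : ℝ) ^ (C₀ * b) ≤ (p : ℝ) ^ (C * b) :=
      pow_le_pow_right₀ hp1 (Nat.mul_le_mul_right b (by omega))
    calc 2 * W = (2 * (C₀ : ℝ)) * ((n : ℝ) + 1) ^ C₀ * (p : ℝ) ^ (C₀ * b) * D ^ (n / b + 1) := by
          rw [hW]
          ring
      _ ≤ _ := by gcongr
  have hZ1 : 1 ≤ (C : ℝ) * ((n : ℝ) + 1) ^ C * (p : ℝ) ^ (C * b) * D ^ (n / b + 1) :=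
    h2W.trans hZ
  calc V ≤ (2 * W) ^ (C₁ : ℝ) := Real.rpow_le_rpow_of_exponent_le h2W (Nat.le_ceil _)
    _ = (2 * W) ^ C₁ := Real.rpow_natCast _ _
    _ ≤ ((C : ℝ) * ((n : ℝ) + 1) ^ C * (p : ℝ) ^ (C * b) * D ^ (n / b + 1)) ^ C₁ :=
        pow_le_pow_left₀ h2W0.le hZ _
    _ ≤ _ := pow_le_pow_right₀ hZ1 hC3

end Pool.Agent.H59.CV.SO
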