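import Pool.Agent.H11.CV.Targets

/-! Module O2 of the cv board (MP_e21eee_nt, helper11). -/

set_option autoImplicit false

open Finset Polynomial

namespace Pool.Agent.H59.CV.O2

open Pool.Agent.H11.CV

theorem o2 (hO1 : T_O1) (hCN : T_CN) (hPB : T_PB) (hDD : T_DD) (hRS : T_RS) : T_O2 := by
  intro p d n j b D lam G _ _ τ f hp hdp hd hj1 hjn hb hD hFlat hFam hBd
  obtain ⟨k, rfl⟩ : ∃ k, j = k + 1 := ⟨j - 1, by omega⟩
  have h1 := hO1 p n (k + 1) (2 * KK (d - 1)) lam G f hp.one_lt (by omega) hjn hBd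
  simp only [Nat.add_sub_cancel] at h1 ⊢
  have hnk : n - k = (n - (k + 1)) + 1 := by omega
  have hPB' := (hPB p d n lam G τ f hp.one_lt (by omega) hFam).1 k (by omega)
  rw [hnk] at hPB' ⊢
  set a := n - (k + 1) with ha
  have h2 := hCN p d (d * n) a b D G τ (pt p n lam f k) hp hdp hd hb
    (Nat.mul_le_mul_left d (by omega)) hD (fun ξ hξ => (hPB' ξ hξ).2) hFlat
  refine h1.trans (h2.trans ?_)
  have h3 : ∑ ξ ∈ range (p ^ a), ∑ g, ‖dlt p a (pt p n lam f k) ξ g‖ ^ (2 * KK (d - 1)) ≤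
      (p : ℝ) ^ (4 * KK (d - 1)) * ∑ ξ ∈ range (p ^ (a + 1)), ∑ g,
        ‖pt p n lam f k ξ g‖ ^ (2 * (2 * KK (d - 1))) := by
    rw [(hRS p a 1 hp.one_lt).1 ℝ, Finset.mul_sum]
    refine Finset.sum_le_sum fun ξ _ => ?_
    rw [Finset.sum_comm, Finset.mul_sum]
    refine Finset.sum_le_sum fun g _ => ?_
    have h4 := hDD p a (2 * KK (d - 1)) G (pt p n lam f k) ξ g hp.one_lt
    rw [pow_one]
    refine h4.trans (le_of_eq ?_)
    congr 2
    ring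
  have h5 : D ^ (a / b + 1) ≤ D ^ (n / b + 1) := by
    refine pow_le_pow_right₀ hD (Nat.succ_le_succ ?_)
    exact Nat.div_le_div_right (by omega)
  have hS : 0 ≤ ∑ ξ ∈ range (p ^ (a + 1)), ∑ g,
      ‖pt p n lam f k ξ g‖ ^ (2 * (2 * KK (d - 1))) :=
    Finset.sum_nonneg fun _ _ => Finset.sum_nonneg fun _ _ => by positivity
  have hA0 : (0 : ℝ) ≤ (p : ℝ) ^ (3 * (d - 1) * b * KK (d - 1)) := by positivity
  have hB0 : (0 : ℝ) ≤ (p : ℝ) ^ (a * (KK (d - 1) - 1)) := by positivity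
  have hD0 : (0 : ℝ) ≤ D ^ (a / b + 1) := pow_nonneg (by linarith) _
  have hD0' : (0 : ℝ) ≤ D ^ (n / b + 1) := pow_nonneg (by linarith) _
  have hT0 : (0 : ℝ) ≤ ∑ ξ ∈ range (p ^ a), ∑ g,
      ‖dlt p a (pt p n lam f k) ξ g‖ ^ (2 * KK (d - 1)) :=
    Finset.sum_nonneg fun _ _ => Finset.sum_nonneg fun _ _ => by positivity
  have h6 : (p : ℝ) ^ (3 * (d - 1) * b * KK (d - 1)) * D ^ (a / b + 1) *
      (p : ℝ) ^ (a * (KK (d - 1) - 1)) ≤ (p : ℝ) ^ (3 * (d - 1) * b * KK (d - 1)) *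
      D ^ (n / b + 1) * (p : ℝ) ^ (a * (KK (d - 1) - 1)) :=
    mul_le_mul_of_nonneg_right (mul_le_mul_of_nonneg_left h5 hA0) hB0
  have h7 := mul_le_mul h6 h3 hT0 (mul_nonneg (mul_nonneg hA0 hD0') hB0)
  refine h7.trans (le_of_eq ?_)
  simp only [mul_assoc]

end Pool.Agent.H59.CV.O2
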