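import Pool.Agent.H59.CV.SQ

/-!
# The relations between two ideals
-/

set_option autoImplicit false

open NumberField NumberField.InfinitePlace Complex Filter Topology MeasureTheory

namespace Pool.Agent.H59.CV

open Pool.Agent.H28.RC Pool.Agent.H25.HK Pool.Agent.H37.CV

section
variable {K : Type} [Field K] [NumberField K]

theorem sup_of_le {I J m : Ideal (𝓞 K)} (h : I ≤ J) (hI : I ⊔ m = ⊤) : J ⊔ m = ⊤ :=
  top_le_iff.1 (hI ▸ sup_le_sup_right h m)

theorem sup_mul {I J m : Ideal (𝓞 K)} (hI : I ⊔ m = ⊤) (hJ : J ⊔ m = ⊤) : I * J ⊔ m = ⊤ :=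
  Ideal.isCoprime_iff_sup_eq.1
    ((Ideal.isCoprime_iff_sup_eq.2 hI).mul_left (Ideal.isCoprime_iff_sup_eq.2 hJ))

theorem of_sup_mul {I J m : Ideal (𝓞 K)} (h : I * J ⊔ m = ⊤) : I ⊔ m = ⊤ ∧ J ⊔ m = ⊤ := by
  have h1 : I * J ≤ I := Ideal.dvd_iff_le.1 (dvd_mul_right I J)
  have h2 : I * J ≤ J := Ideal.dvd_iff_le.1 (dvd_mul_left J I)
  exact ⟨sup_of_le h1 h, sup_of_le h2 h⟩

theorem mul_cancel {c I J : Ideal (𝓞 K)} (hc : c ≠ ⊥) (h : c * I = c * J) : I = J :=
  mul_left_cancel₀ hc h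

theorem mul_ne {I J : Ideal (𝓞 K)} (hI : I ≠ ⊥) (hJ : J ≠ ⊥) : I * J ≠ ⊥ := mul_ne_zero hI hJ

/-- the reduced ratio is determined -/
theorem ratio_unique {A B I J I' J' : Ideal (𝓞 K)} (hA : A ≠ ⊥) (hI : I ≠ ⊥)
    (h : A * J = B * I) (h' : A * J' = B * I') (hIJ : I ⊔ J = ⊤) (hIJ' : I' ⊔ J' = ⊤) :
    I = I' ∧ J = J' := by
  have h1 : J * I' = J' * I := by
    refine mul_cancel hA ?_
    calc A * (J * I') = (A * J) * I' := by ring
      _ = B * I * I' := by rw [h]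
      _ = (B * I') * I := by ring
      _ = A * J' * I := by rw [h']
      _ = A * (J' * I) := by ring
  have h2 : I ∣ I' := by
    refine (Ideal.isCoprime_iff_sup_eq.2 hIJ).dvd_of_dvd_mul_left (z := I') ?_
    rw [h1]
    exact dvd_mul_left _ _
  have h3 : I' ∣ I := by
    refine (Ideal.isCoprime_iff_sup_eq.2 hIJ').dvd_of_dvd_mul_left (z := I) ?_
    rw [← h1]
    exact dvd_mul_left _ _
  have h4 : I = I' := le_antisymm (Ideal.dvd_iff_le.1 h3) (Ideal.dvd_iff_le.1 h2)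
  refine ⟨h4, ?_⟩
  subst h4
  exact mul_right_cancel₀ hI h1

theorem Rl_cancel {m d c I J : Ideal (𝓞 K)} (hc : c ≠ ⊥) (h : Rl m d (c * I) (c * J)) :
    Rl m d I J := by
  obtain ⟨a, b, ha, hb, ha', hb', hab, h1⟩ := h
  refine ⟨a, b, ha, hb, ha', hb', hab, mul_cancel hc ?_⟩
  calc c * (Ideal.span {a} * I) = Ideal.span {a} * (c * I) := by ring
    _ = Ideal.span {b} * (c * J) := h1
    _ = c * (Ideal.span {b} * J) := by ring

/-- the pairs `(a, b)` such that `a S` and `b T` are related -/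
def XX (m d S T : Ideal (𝓞 K)) : Set (NI K × NI K) :=
  {p | p.1.1 ⊔ m = ⊤ ∧ p.2.1 ⊔ m = ⊤ ∧ Rl m d (p.1.1 * S) (p.2.1 * T)}

/-- relations and common factors -/
abbrev YY (m d : Ideal (𝓞 K)) : Type :=
  Σ _p : CP m d, {t : Ideal (𝓞 K) // t ≠ ⊥ ∧ t ⊔ m = ⊤}

theorem reparam {m d S T : Ideal (𝓞 K)} (hS0 : S ≠ ⊥) (hT0 : T ≠ ⊥) (hS : S ⊔ m = ⊤)
    (hT : T ⊔ m = ⊤) (G U V : CP m d → Ideal (𝓞 K)) (hG : ∀ p, G p ≠ ⊥)
    (hU : ∀ p : CP m d, S * p.1.2 = G p * U p) (hV : ∀ p : CP m d, T * p.1.1 = G p * V p)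
    (hUV : ∀ p, U p ⊔ V p = ⊤) :
    ∃ φ : YY m d → NI K × NI K, Function.Injective φ ∧ Set.range φ = XX m d S T ∧
      ∀ y, ((φ y).1.1 = V y.1 * y.2.1 ∧ (φ y).2.1 = U y.1 * y.2.1) := by
  have hV0 : ∀ p, V p ≠ ⊥ := by
    intro p h
    have h1 := hV p
    rw [h, Ideal.mul_bot] at h1
    exact mul_ne hT0 p.2.1 h1
  have hU0 : ∀ p, U p ≠ ⊥ := by
    intro p h
    have h1 := hU p
    rw [h, Ideal.mul_bot] at h1
    exact mul_ne hS0 p.2.2.1 h1
  let φ : YY m d → NI K × NI K := fun y =>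
    (⟨V y.1 * y.2.1, mul_ne (hV0 y.1) y.2.2.1⟩, ⟨U y.1 * y.2.1, mul_ne (hU0 y.1) y.2.2.1⟩)
  -- the basic relation
  have key : ∀ (p : CP m d) (t : Ideal (𝓞 K)), (V p * t * S) * p.1.2 = (U p * t * T) * p.1.1 := by
    intro p t
    refine mul_cancel (hG p) ?_
    calc G p * (V p * t * S * p.1.2) = (G p * V p) * t * (S * p.1.2) := by ring
      _ = (T * p.1.1) * t * (G p * U p) := by rw [← hV p, hU p]
      _ = G p * (U p * t * T * p.1.1) := by ring
  refine ⟨φ, ?_, ?_, fun y => ⟨rfl, rfl⟩⟩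
  · rintro ⟨p, t⟩ ⟨p', t'⟩ h
    have h1 : V p * t.1 = V p' * t'.1 := congrArg (fun z : NI K × NI K => z.1.1) h
    have h2 : U p * t.1 = U p' * t'.1 := congrArg (fun z : NI K × NI K => z.2.1) h
    have k1 := key p t.1
    have k2 := key p' t'.1
    rw [← h1, ← h2] at k2
    have h3 := ratio_unique (mul_ne (mul_ne (hV0 p) t.2.1) hS0) p.2.1 k1 k2 p.2.2.2.1
      p'.2.2.2.1
    have h4 : p = p' := Subtype.ext (Prod.ext h3.1 h3.2)
    subst h4
    have h5 : t = t' := Subtype.ext (mul_cancel (hV0 p) h1)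
    rw [h5]
  · ext x
    constructor
    · rintro ⟨⟨p, t⟩, rfl⟩
      obtain ⟨hI0, hJ0, hIJ, hIm, hJm, α, β, hα, hβ, hα', hβ', hαβ, hrel⟩ := p.2
      have hVm : V p ⊔ m = ⊤ := (of_sup_mul (hV p ▸ sup_mul hT hIm)).2
      have hUm : U p ⊔ m = ⊤ := (of_sup_mul (hU p ▸ sup_mul hS hJm)).2
      refine ⟨sup_mul hVm t.2.2, sup_mul hUm t.2.2, α, β, hα, hβ, hα', hβ', hαβ, ?_⟩
      change Ideal.span {α} * (V p * t.1 * S) = Ideal.span {β} * (U p * t.1 * T)
      refine mul_cancel (mul_ne (hG p) hI0) ?_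
      have k := key p t.1
      calc G p * p.1.1 * (Ideal.span {α} * (V p * t.1 * S))
          = G p * (V p * t.1 * S) * (Ideal.span {α} * p.1.1) := by ring
        _ = G p * (V p * t.1 * S) * (Ideal.span {β} * p.1.2) := by rw [hrel]
        _ = G p * Ideal.span {β} * (V p * t.1 * S * p.1.2) := by ring
        _ = G p * Ideal.span {β} * (U p * t.1 * T * p.1.1) := by rw [k]
        _ = G p * p.1.1 * (Ideal.span {β} * (U p * t.1 * T)) := by ring
    · rintro ⟨ha, hb, hrel⟩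
      set a := x.1.1 with hadef
      set b := x.2.1 with hbdef
      have ha0 : a ≠ ⊥ := x.1.2
      have hb0 : b ≠ ⊥ := x.2.2
      set c := a * S ⊔ b * T with hc
      have hA0 : a * S ≠ ⊥ := mul_ne ha0 hS0
      have hB0 : b * T ≠ ⊥ := mul_ne hb0 hT0
      have hc0 : c ≠ ⊥ := by
        intro h
        have : a * S ≤ c := le_sup_left
        rw [h] at this
        exact hA0 (le_bot_iff.1 this)
      obtain ⟨I, hI⟩ := Ideal.dvd_iff_le.2 (show a * S ≤ c from le_sup_left)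
      obtain ⟨J, hJ⟩ := Ideal.dvd_iff_le.2 (show b * T ≤ c from le_sup_right)
      have hIJ : I ⊔ J = ⊤ := by
        refine mul_cancel hc0 ?_
        rw [Ideal.mul_sup, ← hI, ← hJ, Ideal.mul_top]
      have hI0 : I ≠ ⊥ := by
        intro h
        rw [h, Ideal.mul_bot] at hI
        exact hA0 hI
      have hJ0 : J ≠ ⊥ := by
        intro h
        rw [h, Ideal.mul_bot] at hJ
        exact hB0 hJ
      have hIm : I ⊔ m = ⊤ := (of_sup_mul (hI ▸ sup_mul ha hS)).2
      have hJm : J ⊔ m = ⊤ := (of_sup_mul (hJ ▸ sup_mul hb hT)).2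
      have hR : Rl m d I J := by
        rw [hI, hJ] at hrel
        exact Rl_cancel hc0 hrel
      let p : CP m d := ⟨(I, J), hI0, hJ0, hIJ, hIm, hJm, hR⟩
      have hp1 : p.1.1 = I := rfl
      have hp2 : p.1.2 = J := rfl
      have h1 : a * U p = b * V p := by
        refine mul_cancel (hG p) ?_
        calc G p * (a * U p) = a * (G p * U p) := by ring
          _ = a * (S * J) := by rw [← hU p]
          _ = (a * S) * J := by ring
          _ = c * I * J := by rw [hI]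
          _ = (c * J) * I := by ring
          _ = b * T * I := by rw [← hJ]
          _ = b * (T * I) := by ring
          _ = b * (G p * V p) := by rw [← hV p]
          _ = G p * (b * V p) := by ring
      have hcop : IsCoprime (V p) (U p) := (Ideal.isCoprime_iff_sup_eq.2 (hUV p)).symm
      have h2 : V p ∣ a := by
        refine hcop.dvd_of_dvd_mul_right (y := a) ?_
        rw [h1]
        exact dvd_mul_left _ _
      obtain ⟨t, ht⟩ := h2
      have h3 : b = U p * t := by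
        refine mul_cancel (hV0 p) ?_
        calc V p * b = b * V p := by ring
          _ = a * U p := h1.symm
          _ = V p * t * U p := by rw [← ht]
          _ = V p * (U p * t) := by ring
      have ht0 : t ≠ ⊥ := by
        intro h
        rw [h, Ideal.mul_bot] at ht
        exact ha0 ht
      have htm : t ⊔ m = ⊤ := (of_sup_mul (ht ▸ ha)).2
      refine ⟨⟨p, ⟨t, ht0, htm⟩⟩, ?_⟩
      refine Prod.ext (Subtype.ext ?_) (Subtype.ext ?_)
      · change V p * t = a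
        exact ht.symm
      · change U p * t = b
        exact h3.symm

end

end Pool.Agent.H59.CV
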